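import Mathlib
import Pool.Agent.H116.Bnr
import Pool.Agent.H116.BnrFamily

/-!
# `α_bnr - Γ_b` is unbounded on graphs of large minimum degree
-/

namespace Pool.Agent.Results.MP_99edab_co.MinDegreeUnbounded

open SimpleGraph Pool.Agent.H116.Bnr

/-- **Main result.**  For all `d` and `N` there is a finite connected graph all of whose degrees
are at least `d` such that `α_bnr(G) ≥ Γ_b(G) + N`; in particular (`d = 2`, `N = 1`)
`α_bnr ≤ Γ_b` fails for some graph of minimum degree at least `2`. -/
theorem result :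
    (∀ d N : ℕ, ∃ (V : Type) (_ : Fintype V) (_ : Nontrivial V) (G : SimpleGraph V),
      G.Connected ∧ (∀ v, d ≤ (G.neighborSet v).ncard) ∧ Gammab G + N ≤ alphaBnr G) ∧
    ¬ (∀ (V : Type) (_ : Fintype V) (_ : Nontrivial V) (G : SimpleGraph V),
      G.Connected → (∀ v, 2 ≤ (G.neighborSet v).ncard) → alphaBnr G ≤ Gammab G) := by
  have h1 : ∀ d N : ℕ, ∃ (V : Type) (_ : Fintype V) (_ : Nontrivial V) (G : SimpleGraph V),
      G.Connected ∧ (∀ v, d ≤ (G.neighborSet v).ncard) ∧ Gammab G + N ≤ alphaBnr G := by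
    intro d N
    have hk : 0 < N + 20 := by omega
    have hc := GG_connected (N + 20) hk
    have ht : 0 < d + 1 := by omega
    have hnt : Nontrivial (Vx (N + 20) × Fin (d + 1)) :=
      ⟨(Vx.h, 0), (Vx.w, 0), by simp⟩
    refine ⟨Vx (N + 20) × Fin (d + 1), inferInstance, hnt, blow (GG (N + 20)) (d + 1),
      blow_connected _ _ hc ht, ?_, ?_⟩
    · intro v
      have := blow_degree (GG (N + 20)) (d + 1) hc v
      omega
    · have h2 := alpha_blow (GG (N + 20)) (d + 1) hc ht
      have h3 := Gammab_blow (GG (N + 20)) (d + 1) hc ht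
      have h4 := alpha_lower (N + 20) hk
      have h5 := gamma_upper (N + 20) hk
      omega
  refine ⟨h1, ?_⟩
  intro hall
  obtain ⟨V, hV, hN, G, hG, hdeg, h2⟩ := h1 2 1
  have := hall V hV hN G hG hdeg
  omega

end Pool.Agent.Results.MP_99edab_co.MinDegreeUnbounded
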